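import Pool.Agent.H46.Cheb.Rein3

/-!
# A non-regular extremal convex nonagon

We prove that among the convex `9`-gons there is one which minimises the ratio of the perimeter
and the self Chebyshev radius of the boundary but is not a regular `9`-gon.

Outline of the proof.

* Every convex polygon with at most eight vertices satisfies `L ≥ 3.1739 δ`
  (`Pool.Agent.H46.Cheb.core`, in the form needed for degenerate limits of nonagons), whereas
  `18 tan (π / 18) < 3.1739`.
* The Reinhardt nonagon obtained from the Reuleaux triangle by dividing each arc into three equal
  parts is not regular and satisfies `L / δ ≤ 18 tan (π / 18)`.
* Hence, by compactness, there is an extremal nonagon. If it is not regular, we are done. If it is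
  regular, its ratio is at least `18 tan (π / 18)`, so that the Reinhardt nonagon above is also
  extremal.
-/

namespace Pool.Agent.Results.MP_27c08e_co.IrregularNonagon

open Pool.Agent.H46.Cheb

/-- There is an extremal convex `9`-gon which is not regular. -/
theorem result : ∃ v : Fin 9 → ℂ, IsExtremalNGon v ∧ ¬ IsRegularNGon v := main

end Pool.Agent.Results.MP_27c08e_co.IrregularNonagon
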